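import Pool.Agent.Helper69.MWF.Stmts

/-!
# MP_80e84b_lc (S14965): the action of the labels
-/

set_option autoImplicit false

open Topology Set Filter

namespace Pool.Agent.Helper45.MWF

open Pool.Agent.Helper95.MW Pool.Agent.Helper69.MWF

/-- a continuous map such that preimages of dense open sets are dense -/
theorem tendsto_res {X Y : Type*} [TopologicalSpace X] [TopologicalSpace Y] {f : X → Y}
    (hc : Continuous f) (hd : ∀ O : Set Y, IsOpen O → Dense O → Dense (f ⁻¹' O)) :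
    Tendsto f (residual X) (residual Y) := by
  intro O hO
  obtain ⟨S, h1, h2, h3, h4⟩ := mem_residual_iff.1 hO
  rw [Filter.mem_map, mem_residual_iff]
  refine ⟨(fun t => f ⁻¹' t) '' S, ?_, ?_, h3.image _, ?_⟩
  · rintro _ ⟨t, ht, rfl⟩
    exact (h1 t ht).preimage hc
  · rintro _ ⟨t, ht, rfl⟩
    exact hd t (h1 t ht) (h2 t ht)
  · intro x hx
    refine h4 ?_
    rw [mem_sInter]
    intro t ht
    exact hx (f ⁻¹' t) ⟨t, ht, rfl⟩

theorem isOpen_cy (f : ℕ → ℕ) (n : ℕ) : IsOpen (Cy f n) :=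
  PiNat.isOpen_cylinder (fun _ => ℕ) f n

theorem nb {U : Set (ℕ → ℕ)} (hU : IsOpen U) {x : ℕ → ℕ} (hx : x ∈ U) : ∃ n, Cy x n ⊆ U := by
  obtain ⟨V, ⟨y, n, rfl⟩, h1, h2⟩ :=
    (PiNat.isTopologicalBasis_cylinders (fun _ => ℕ)).exists_subset_of_mem_open hx hU
  refine ⟨n, fun z hz => h2 ?_⟩
  intro i hi
  rw [hz i hi]
  exact h1 i hi

theorem nb2 {U : Set ((ℕ → ℕ) × (ℕ → ℕ))} (hU : IsOpen U) {p : (ℕ → ℕ) × (ℕ → ℕ)} (hp : p ∈ U) :
    ∃ n, ∀ q : (ℕ → ℕ) × (ℕ → ℕ), q.1 ∈ Cy p.1 n → q.2 ∈ Cy p.2 n → q ∈ U := by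
  obtain ⟨u, v, hu, hv, pu, pv, huv⟩ := isOpen_prod_iff.1 hU p.1 p.2 hp
  obtain ⟨n, hn⟩ := nb hu pu
  obtain ⟨m, hm⟩ := nb hv pv
  refine ⟨max n m, fun q h1 h2 => huv ⟨hn fun i hi => ?_, hm fun i hi => ?_⟩⟩
  · exact h1 i (lt_of_lt_of_le hi (le_max_left _ _))
  · exact h2 i (lt_of_lt_of_le hi (le_max_right _ _))

theorem le_ec_of_mem {k : ℕ} {l : List ℕ} (h : k ∈ l) : k ≤ ec l := by
  induction l with
  | nil => simp at h
  | cons a l ih =>
    unfold ec at *
    rw [Encodable.encode_list_cons]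
    rcases List.mem_cons.1 h with h | h
    · subst h
      exact (Nat.left_le_pair _ _).trans (Nat.le_succ _)
    · exact ((ih h).trans (Nat.right_le_pair _ _)).trans (Nat.le_succ _)

theorem mem_ini {g : ℕ → ℕ} {i n : ℕ} (h : i < n) : g i ∈ ini g n := by
  unfold ini
  exact List.mem_map.2 ⟨i, List.mem_range.2 h, rfl⟩

theorem ini_congr {f g : ℕ → ℕ} {s : ℕ} (h : ∀ i < s, f i = g i) : ini f s = ini g s :=
  ini_eq_of_agree h

theorem continuous_alp (u : ℕ → ℕ) (M : ℕ) :
    Continuous fun p : (ℕ → ℕ) × (ℕ → ℕ) => alp u M p.1 p.2 := by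
  refine continuous_pi fun n => ?_
  refine IsLocallyConstant.continuous ?_
  rw [IsLocallyConstant.iff_exists_open]
  intro p
  refine ⟨Cy p.1 (ec (ini p.2 (n + 1)) + 1) ×ˢ Cy p.2 (n + 1),
    (isOpen_cy _ _).prod (isOpen_cy _ _), ⟨fun i _ => rfl, fun i _ => rfl⟩, ?_⟩
  rintro q ⟨h1, h2⟩
  unfold alp pre act
  rw [ini_congr h2, h1 _ (Nat.lt_succ_self _)]

theorem tendsto_alp (u : ℕ → ℕ) (M : ℕ) :
    Tendsto (fun p : (ℕ → ℕ) × (ℕ → ℕ) => (p.1, alp u M p.1 p.2)) (residual _) (residual _) := by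
  refine tendsto_res (continuous_fst.prodMk (continuous_alp u M)) ?_
  intro O hO hD
  rw [dense_iff_inter_open]
  rintro U hU ⟨⟨s0, g0⟩, hp0⟩
  obtain ⟨N0, hN0⟩ := nb2 hU hp0
  set N1 := max N0 M with hN1
  set N2 := max N1 (((Finset.range N1).sup fun n => ec (ini g0 (n + 1))) + 1) with hN2
  have hcode : ∀ n < N1, ec (ini g0 (n + 1)) < N2 := by
    intro n hn
    have h1 := Finset.le_sup (f := fun n => ec (ini g0 (n + 1))) (Finset.mem_range.2 hn)
    have h2 : ((Finset.range N1).sup fun n => ec (ini g0 (n + 1))) + 1 ≤ N2 := le_max_right _ _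
    omega
  obtain ⟨⟨s2, z2⟩, ⟨hs2, hz2⟩, hO2⟩ := hD.inter_open_nonempty
    (Cy s0 N2 ×ˢ Cy (alp u M s0 g0) N1) ((isOpen_cy _ _).prod (isOpen_cy _ _))
    ⟨(s0, alp u M s0 g0), ⟨fun i _ => rfl, fun i _ => rfl⟩⟩
  simp only at hs2 hz2
  obtain ⟨N3, hN3⟩ := nb2 hO hO2
  set K := max N3 N2 with hK
  set g1 : ℕ → ℕ := fun i => if i < N1 then g0 i else if i = N1 then K else 0 with hg1
  have hg1K : ∀ n, N1 ≤ n → K ≤ ec (ini g1 (n + 1)) := by
    intro n hn
    refine le_ec_of_mem ?_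
    have h1 : g1 N1 = K := by
      simp [hg1]
    rw [← h1]
    exact mem_ini (by omega)
  classical
  set s1 : ℕ → ℕ := fun k => if ∃ n, N1 ≤ n ∧ k = ec (ini g1 (n + 1)) then
    z2 ((dl k).length - 1) else s2 k with hs1
  have hs12 : ∀ k < K, s1 k = s2 k := by
    intro k hk
    simp only [hs1]
    rw [if_neg]
    rintro ⟨n, hn, hkn⟩
    have := hg1K n hn
    omega
  have hN12 : N1 ≤ N2 := le_max_left _ _
  have hN01 : N0 ≤ N1 := le_max_left _ _
  have hMN1 : M ≤ N1 := le_max_right _ _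
  have hN3K : N3 ≤ K := le_max_left _ _
  have hN2K : N2 ≤ K := le_max_right _ _
  have halp : alp u M s1 g1 = z2 := by
    funext n
    rcases lt_or_ge n M with h | h
    · rw [hz2 n (by omega)]
      unfold alp pre
      rw [if_pos h, if_pos h]
    · have e1 : alp u M s1 g1 n = s1 (ec (ini g1 (n + 1))) := by
        unfold alp pre act
        rw [if_neg (by omega)]
      rw [e1]
      rcases lt_or_ge n N1 with h' | h'
      · have e2 : ini g1 (n + 1) = ini g0 (n + 1) := by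
          refine ini_congr fun i hi => ?_
          simp only [hg1]
          rw [if_pos (by omega)]
        rw [e2, hz2 n h', hs12 _ (lt_of_lt_of_le (hcode n h') hN2K), hs2 _ (hcode n h')]
        unfold alp pre act
        rw [if_neg (by omega)]
      · simp only [hs1]
        rw [if_pos ⟨n, h', rfl⟩, dl_ec, ini_length]
        rfl
  refine ⟨(s1, g1), hN0 (s1, g1) ?_ ?_, ?_⟩
  · intro i hi
    change s1 i = s0 i
    rw [hs12 i (by omega)]
    exact hs2 i (by omega)
  · intro i hi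
    change g1 i = g0 i
    simp only [hg1]
    rw [if_pos (by omega)]
  · change (s1, alp u M s1 g1) ∈ O
    rw [halp]
    refine hN3 (s1, z2) ?_ fun i _ => rfl
    intro i hi
    exact hs12 i (by omega)

theorem act1 : ST_ACT1 := by
  intro u M W _ O hO
  filter_upwards [tendsto_alp u M hO] with p hp _ _
  exact hp

theorem swp_swp (i j : ℕ) : swp i (swp i j) = j := by
  unfold swp
  split_ifs <;> omega

theorem hm_hm (u : ℕ → ℕ) (M : ℕ) (s : ℕ → ℕ) : Hm u M (Hm u M s) = s := by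
  funext k
  unfold Hm
  by_cases h : k = ec (ini u M ++ [(dl k).getD M 0])
  · rw [if_pos h, if_pos h, swp_swp]
  · rw [if_neg h, if_neg h]

theorem continuous_hm (u : ℕ → ℕ) (M : ℕ) : Continuous (Hm u M) := by
  refine continuous_pi fun k => ?_
  unfold Hm
  by_cases h : k = ec (ini u M ++ [(dl k).getD M 0])
  · simp only [if_pos h]
    exact (continuous_of_discreteTopology (f := swp ((dl k).getD M 0))).comp (continuous_apply k)
  · simp only [if_neg h]
    exact continuous_apply k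

/-- the involution as a homeomorphism -/
def hmHomeo (u : ℕ → ℕ) (M : ℕ) : (ℕ → ℕ) ≃ₜ (ℕ → ℕ) where
  toFun := Hm u M
  invFun := Hm u M
  left_inv := hm_hm u M
  right_inv := hm_hm u M
  continuous_toFun := continuous_hm u M
  continuous_invFun := continuous_hm u M

theorem tendsto_hm (u : ℕ → ℕ) (M : ℕ) :
    Tendsto (fun s => Hm u M s) (residual (ℕ → ℕ)) (residual (ℕ → ℕ)) :=
  tendsto_residual_of_isOpenMap (hmHomeo u M).continuous (hmHomeo u M).isOpenMap

theorem tendsto_hm2 (u : ℕ → ℕ) (M : ℕ) :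
    Tendsto (fun p : (ℕ → ℕ) × (ℕ → ℕ) => (Hm u M p.1, p.2)) (residual _) (residual _) :=
  tendsto_residual_of_isOpenMap ((hmHomeo u M).prodCongr (Homeomorph.refl _)).continuous
    ((hmHomeo u M).prodCongr (Homeomorph.refl _)).isOpenMap

theorem primrec_swp : Primrec₂ swp := by
  unfold swp
  refine Primrec.ite ?_ ?_ (Primrec.ite ?_ ?_ ?_)
  · exact Primrec.nat_le.comp Primrec.snd Primrec.fst
  · exact Primrec.nat_add.comp (Primrec.nat_add.comp Primrec.snd Primrec.fst) (Primrec.const 1)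
  · exact Primrec.nat_le.comp Primrec.snd (Primrec.nat_add.comp
      (Primrec.nat_mul.comp (Primrec.const 2) Primrec.fst) (Primrec.const 1))
  · exact Primrec.nat_sub.comp Primrec.snd (Primrec.nat_add.comp Primrec.fst (Primrec.const 1))
  · exact Primrec.snd

theorem le_hm (u : ℕ → ℕ) (M : ℕ) (s : ℕ → ℕ) : LE (Hm u M s) s := by
  rw [le_iff]
  have hG : Primrec fun m : ℕ => if m.unpair.1 = ec (ini u M ++ [(dl m.unpair.1).getD M 0]) then
      swp ((dl m.unpair.1).getD M 0) m.unpair.2 else m.unpair.2 := by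
    have h1 : Primrec fun m : ℕ => m.unpair.1 := Primrec.fst.comp Primrec.unpair
    have h2 : Primrec fun m : ℕ => m.unpair.2 := Primrec.snd.comp Primrec.unpair
    have h3 : Primrec fun m : ℕ => (dl m.unpair.1).getD M 0 :=
      (Primrec.list_getD 0).comp (primrec_dl.comp h1) (Primrec.const M)
    refine Primrec.ite ?_ ?_ h2
    · refine Primrec.eq.comp h1 (primrec_ec.comp ?_)
      refine Primrec.list_append.comp (Primrec.const (ini u M)) ?_
      exact Primrec.list_cons.comp h3 (Primrec.const [])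
    · exact primrec_swp.comp h3 h2
  have h := rt_comp (rt_prim (w := s) (Primrec.nat_iff.1 hG))
    (rt_pair (rt_prim (w := s) (Primrec.nat_iff.1 Primrec.id)) (rt_oracle s))
  refine cast ?_ h
  congr 1
  funext n
  simp only [Nat.unpair_pair, id]
  rfl

theorem hm : ST_HM := fun u M =>
  ⟨hm_hm u M, le_hm u M, tendsto_hm u M, tendsto_hm2 u M⟩

theorem tendsto_orb (u : ℕ → ℕ) (M : ℕ) (w : List Bool) :
    Tendsto (fun p : (ℕ → ℕ) × (ℕ → ℕ) => (p.1, orb u M p.1 p.2 w)) (residual _)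
      (residual _) := by
  induction w with
  | nil => exact tendsto_id
  | cons b w ih =>
    cases b with
    | false => exact (tendsto_alp u M).comp ih
    | true =>
      have h := (tendsto_hm2 u M).comp ((tendsto_alp u M).comp ((tendsto_hm2 u M).comp ih))
      refine h.congr fun p => ?_
      simp only [Function.comp, hm_hm]
      rfl

theorem orb1 : ST_ORB1 := by
  intro u M W _ _ O hO
  have h1 : ∀ w : List Bool, ∀ᶠ p in residual ((ℕ → ℕ) × (ℕ → ℕ)),
      (p.1, orb u M p.1 p.2 w) ∈ O ∧ (Hm u M p.1, orb u M p.1 p.2 w) ∈ O := by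
    intro w
    filter_upwards [tendsto_orb u M w hO, (tendsto_hm2 u M).comp (tendsto_orb u M w) hO]
      with p hp1 hp2
    exact ⟨hp1, hp2⟩
  filter_upwards [eventually_countable_forall.2 h1] with p hp _ _
  exact hp

end Pool.Agent.Helper45.MWF
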