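import Pool.Agent.Helper69.MWF.Stmts
import Pool.Agent.Helper69.MWF.BasicT

/-!
# MP_80e84b_lc (S14965): Borel sets
-/

set_option autoImplicit false

open Topology Set Filter
open Nat.Partrec (Code)

namespace Pool.Agent.Helper45.MWF

open Pool.Agent.Helper95.MW Pool.Agent.Helper69.MWF

theorem isOpen_wc (c : Code) (m : ℕ) : IsOpen {f : ℕ → ℕ | m ∈ WC c f} := by
  refine isOpen_of_Cy fun x hx => ?_
  obtain ⟨s, hs⟩ := WC_use' (c := c) (f := x) (n := m) hx
  exact ⟨s, fun y hy => hs y hy⟩

theorem isOpen_segs (m : ℕ) : IsOpen {f : ℕ → ℕ | m ∈ segs f} := by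
  refine isOpen_of_Cy fun x hx => ?_
  obtain ⟨s, hs⟩ := hx
  refine ⟨s, fun y hy => ⟨s, ?_⟩⟩
  rw [hs, mem_Cy_iff.1 hy]

theorem meas_wc (c : Code) (m : ℕ) : MeasurableSet {f : ℕ → ℕ | m ∈ WC c f} :=
  (isOpen_wc c m).measurableSet

theorem borwc : ST_BORWC := by
  intro A c
  have e : {f : ℕ → ℕ | A = WC c f} = ⋂ m, {f | m ∈ A ↔ m ∈ WC c f} := by
    ext f
    simp only [mem_iInter, Set.mem_ofPred_eq]
    exact Set.ext_iff
  rw [e]
  refine MeasurableSet.iInter fun m => ?_
  by_cases h : m ∈ A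
  · simp only [h, true_iff]
    exact meas_wc c m
  · simp only [h, false_iff]
    exact (meas_wc c m).compl

theorem borsw : ST_BORSW := by
  intro c
  have e : {p : (ℕ → ℕ) × (ℕ → ℕ) | segs p.1 = WC c p.2} =
      ⋂ m, (({p : (ℕ → ℕ) × (ℕ → ℕ) | m ∈ segs p.1} ∩ {p | m ∈ WC c p.2}) ∪
        ({p : (ℕ → ℕ) × (ℕ → ℕ) | m ∈ segs p.1}ᶜ ∩ {p | m ∈ WC c p.2}ᶜ)) := by
    ext p
    simp only [mem_iInter, Set.mem_ofPred_eq, mem_union, mem_inter_iff, mem_compl_iff]
    rw [Set.ext_iff]
    refine forall_congr' fun m => ?_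
    tauto
  rw [e]
  refine MeasurableSet.iInter fun m => ?_
  have h1 : MeasurableSet {p : (ℕ → ℕ) × (ℕ → ℕ) | m ∈ segs p.1} :=
    (isOpen_segs m).measurableSet.preimage measurable_fst
  have h2 : MeasurableSet {p : (ℕ → ℕ) × (ℕ → ℕ) | m ∈ WC c p.2} :=
    (meas_wc c m).preimage measurable_snd
  exact (h1.inter h2).union (h1.compl.inter h2.compl)

theorem borle : ST_BORLE := by
  have e : {p : (ℕ → ℕ) × (ℕ → ℕ) | LE p.1 p.2} =
      ⋃ c : Code, {p : (ℕ → ℕ) × (ℕ → ℕ) | segs p.1 = WC c p.2} := by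
    ext p
    simp only [mem_iUnion, Set.mem_ofPred_eq]
    exact le_iff_WC
  unfold ST_BORLE
  rw [e]
  exact MeasurableSet.iUnion fun c => borsw c

theorem borce : ST_BORCE := by
  intro A
  have e : {f : ℕ → ℕ | CEIn A f} = ⋃ c : Code, {f : ℕ → ℕ | A = WC c f} := by
    ext f
    simp only [mem_iUnion, Set.mem_ofPred_eq]
    exact ceIn_iff
  rw [e]
  exact MeasurableSet.iUnion fun c => borwc A c

theorem ap_segs (c : Code) (x : ℕ → ℕ) (h : ∃ y, segs y = WC c x) : segs (Ap c x) = WC c x := by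
  unfold Ap
  rw [dif_pos h]
  exact h.choose_spec

theorem ap_not (c : Code) (x : ℕ → ℕ) (h : ¬ ∃ y, segs y = WC c x) : Ap c x = fun _ => 0 := by
  unfold Ap
  rw [dif_neg h]

/-- `WC c x` is the set of initial segments of a function -/
theorem exists_segs_iff (c : Code) (x : ℕ → ℕ) : (∃ y, segs y = WC c x) ↔
    (∀ n : ℕ, ∃ l : List ℕ, l.length = n ∧ ec l ∈ WC c x) ∧
    (∀ m : ℕ, m ∈ WC c x → ec (dl m) = m) ∧
    ∀ v : List ℕ × List ℕ, ec v.1 ∈ WC c x → ec v.2 ∈ WC c x → v.1.length ≤ v.2.length →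
      v.1 = v.2.take v.1.length := by
  constructor
  · rintro ⟨y, hy⟩
    rw [← hy]
    refine ⟨fun n => ⟨ini y n, ini_length y n, n, rfl⟩, ?_, ?_⟩
    · rintro m ⟨n, rfl⟩
      rw [dl_ec]
    · rintro ⟨l, l'⟩ ⟨n, hn⟩ ⟨n', hn'⟩ hl
      have h1 := ec_inj hn
      have h2 := ec_inj hn'
      simp only at h1 h2 hl ⊢
      subst h1 h2
      rw [ini_length, ini_length] at hl
      rw [ini_length]
      apply List.ext_getElem
      · simp [ini_length, hl]
      · intro i h1 h2
        simp [ini]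
  · rintro ⟨h1, h2, h3⟩
    choose l hl1 hl2 using h1
    have hcompat : ∀ n n', n ≤ n' → l n = (l n').take n := by
      intro n n' hn
      have := h3 (l n, l n') (hl2 n) (hl2 n') (by rw [hl1, hl1]; exact hn)
      simpa only [hl1] using this
    have hini : ∀ n, ini (fun i => (l (i + 1)).getD i 0) n = l n := by
      intro n
      apply List.ext_getElem
      · rw [ini_length, hl1]
      · intro i h4 h5
        rw [ini_length] at h4
        have h6 := hcompat (i + 1) n h4
        have h7 : (l (i + 1)).getD i 0 = (l n)[i] := by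
          rw [h6]
          simp [List.getD, h5]
        simpa [ini] using h7
    refine ⟨fun i => (l (i + 1)).getD i 0, ?_⟩
    ext m
    constructor
    · rintro ⟨n, rfl⟩
      rw [hini]
      exact hl2 n
    · intro hm
      have h4 := h2 m hm
      refine ⟨(dl m).length, ?_⟩
      rw [hini]
      have h5 := h3 (dl m, l (dl m).length) (by rw [h4]; exact hm) (hl2 _) (by rw [hl1])
      simp only at h5
      have h6 : dl m = l (dl m).length := by
        rw [List.take_of_length_le (by rw [hl1])] at h5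
        exact h5
      rw [← h6, h4]

theorem meas_exists (c : Code) : MeasurableSet {x : ℕ → ℕ | ∃ y, segs y = WC c x} := by
  have e : {x : ℕ → ℕ | ∃ y, segs y = WC c x} =
      ((⋂ n : ℕ, ⋃ l : List ℕ, {x : ℕ → ℕ | l.length = n ∧ ec l ∈ WC c x}) ∩
      (⋂ m : ℕ, {x : ℕ → ℕ | m ∈ WC c x → ec (dl m) = m})) ∩
      ⋂ v : List ℕ × List ℕ, {x : ℕ → ℕ | ec v.1 ∈ WC c x → ec v.2 ∈ WC c x →
        v.1.length ≤ v.2.length → v.1 = v.2.take v.1.length} := by
    ext x
    simp only [Set.mem_ofPred_eq, mem_inter_iff, mem_iInter, mem_iUnion]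
    rw [exists_segs_iff]
    tauto
  rw [e]
  refine (MeasurableSet.inter ?_ ?_).inter ?_
  · refine MeasurableSet.iInter fun n => MeasurableSet.iUnion fun l => ?_
    by_cases h : l.length = n
    · simp only [h, true_and]
      exact meas_wc c _
    · simp only [h, false_and]
      exact MeasurableSet.empty
  · refine MeasurableSet.iInter fun m => ?_
    by_cases h : ec (dl m) = m
    · simp only [h, imp_true_iff]
      exact MeasurableSet.univ
    · simp only [h, imp_false]
      exact (meas_wc c m).compl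
  · refine MeasurableSet.iInter fun v => ?_
    by_cases h : v.1.length ≤ v.2.length → v.1 = v.2.take v.1.length
    · have e2 : {x : ℕ → ℕ | ec v.1 ∈ WC c x → ec v.2 ∈ WC c x →
          v.1.length ≤ v.2.length → v.1 = v.2.take v.1.length} = univ :=
        eq_univ_of_forall fun x _ _ => h
      rw [e2]
      exact MeasurableSet.univ
    · have e2 : {x : ℕ → ℕ | ec v.1 ∈ WC c x → ec v.2 ∈ WC c x →
          v.1.length ≤ v.2.length → v.1 = v.2.take v.1.length} =
          ({x : ℕ → ℕ | ec v.1 ∈ WC c x} ∩ {x : ℕ → ℕ | ec v.2 ∈ WC c x})ᶜ := by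
        ext x
        simp only [Set.mem_ofPred_eq, mem_compl_iff, mem_inter_iff]
        tauto
      rw [e2]
      exact ((meas_wc c _).inter (meas_wc c _)).compl

theorem meas_ap (c : Code) : Measurable (Ap c) := by
  rw [measurable_pi_iff]
  intro i
  refine measurable_to_countable' fun k => ?_
  have e : (fun x => Ap c x i) ⁻¹' {k} =
      ({x : ℕ → ℕ | ∃ y, segs y = WC c x} ∩
        ⋃ l : List ℕ, {x : ℕ → ℕ | l[i]? = some k ∧ ec l ∈ WC c x}) ∪
      ({x : ℕ → ℕ | ∃ y, segs y = WC c x}ᶜ ∩ {_x | k = 0}) := by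
    ext x
    by_cases h : ∃ y, segs y = WC c x
    · have h1 := ap_segs c x h
      simp only [mem_preimage, mem_singleton_iff, mem_union, mem_inter_iff, Set.mem_ofPred_eq, h,
        true_and, mem_iUnion, mem_compl_iff, not_true_eq_false, false_and, or_false]
      rw [← h1]
      constructor
      · intro h2
        refine ⟨ini (Ap c x) (i + 1), ?_, i + 1, rfl⟩
        rw [ini_get? (Nat.lt_succ_self i), h2]
      · rintro ⟨l, hl, n, hn⟩
        have h3 := ec_inj hn
        subst h3
        exact ini_get?_eq hl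
    · have h1 := ap_not c x h
      simp only [mem_preimage, mem_singleton_iff, mem_union, mem_inter_iff, Set.mem_ofPred_eq, h,
        false_and, mem_compl_iff, not_false_eq_true, true_and, false_or]
      rw [h1]
      exact eq_comm
  rw [e]
  refine ((meas_exists c).inter (MeasurableSet.iUnion fun l => ?_)).union
    ((meas_exists c).compl.inter ?_)
  · by_cases h : l[i]? = some k
    · simp only [h, true_and]
      exact meas_wc c _
    · simp only [h, false_and]
      exact MeasurableSet.empty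
  · exact MeasurableSet.const _

theorem ap : ST_AP := by
  refine ⟨meas_ap, fun c x => ?_, fun x y h => ?_, ap_segs⟩
  · by_cases h : ∃ y, segs y = WC c x
    · exact le_iff_WC.2 ⟨c, ap_segs c x h⟩
    · rw [ap_not c x h]
      exact le_zero x
  · obtain ⟨c, hc⟩ := le_iff_WC.1 h
    refine ⟨c, segs_inj ?_⟩
    rw [ap_segs c x ⟨y, hc⟩, hc]

end Pool.Agent.Helper45.MWF
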