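import Pool.Agent.Helper45.MWF.ACT
import Pool.Agent.Helper69.MWF.BasicT

/-!
# MP_80e84b_lc (S14965): generic orbits are dense
-/

set_option autoImplicit false

open Topology Set Filter
open Nat.Partrec (Code)

namespace Pool.Agent.Helper45.MWF

open Pool.Agent.Helper95.MW Pool.Agent.Helper69.MWF

theorem alp_at {u s g : ℕ → ℕ} {M : ℕ} (hg : g ∈ Cy u M) :
    alp u M s g M = s (ec (ini u M ++ [g M])) := by
  unfold alp pre act
  rw [if_neg (lt_irrefl M), ini_succ, mem_Cy_iff.1 hg]

theorem hm_at (u s : ℕ → ℕ) (M j : ℕ) :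
    Hm u M s (ec (ini u M ++ [j])) = swp j (s (ec (ini u M ++ [j]))) := by
  have h : (dl (ec (ini u M ++ [j]))).getD M 0 = j := by
    rw [dl_ec]
    simp [List.getD, ini_length]
  unfold Hm
  rw [h, if_pos rfl]

theorem orb_mem' (u : ℕ → ℕ) (M : ℕ) (s g : ℕ → ℕ) (hg : g ∈ Cy u M) (w : List Bool) :
    orb u M s g w ∈ Cy u M := by
  cases w with
  | nil => exact hg
  | cons b w => exact pre_mem u M _

/-- the coordinate `M` is unbounded on the orbit -/
theorem exists_large (u s g : ℕ → ℕ) (M N : ℕ) (hg : g ∈ Cy u M) :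
    ∃ w, N ≤ orb u M s g w M := by
  by_contra hc
  push Not at hc
  have hb : BddAbove (range fun w => orb u M s g w M) := ⟨N, by
    rintro _ ⟨w, rfl⟩
    exact (hc w).le⟩
  obtain ⟨w, hw⟩ := Nat.sSup_mem (range_nonempty fun w => orb u M s g w M) hb
  have hmax : ∀ w', orb u M s g w' M ≤ orb u M s g w M := by
    intro w'
    have hw' : orb u M s g w M = sSup (range fun w => orb u M s g w M) := hw
    rw [hw']
    exact le_csSup hb ⟨w', rfl⟩
  have hm := orb_mem' u M s g hg w
  have h1 : orb u M s g (false :: w) M = s (ec (ini u M ++ [orb u M s g w M])) := alp_at hm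
  have h2 : orb u M s g (true :: w) M =
      swp (orb u M s g w M) (s (ec (ini u M ++ [orb u M s g w M]))) := by
    have h3 : orb u M s g (true :: w) M =
      (Hm u M s) (ec (ini u M ++ [orb u M s g w M])) := alp_at hm
    rw [h3, hm_at]
  have h3 := hmax (false :: w)
  have h4 := hmax (true :: w)
  rw [h1] at h3
  rw [h2] at h4
  unfold swp at h4
  rw [if_pos h3] at h4
  omega

theorem orb_dense_step (u s0 g0 v : ℕ → ℕ) (M n : ℕ) (hg : g0 ∈ Cy u M) (hv : v ∈ Cy u M) :
    ∃ s1 ∈ Cy s0 n, ∃ w, orb u M s1 g0 w = v := by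
  classical
  set N := max n (g0 M + 1) with hN
  obtain ⟨w0, hw0⟩ := exists_large u s0 g0 M N hg
  have hex : ∃ L, ∃ w, w.length = L ∧ N ≤ orb u M s0 g0 w M := ⟨w0.length, w0, rfl, hw0⟩
  obtain ⟨w, hwL, hwN⟩ := Nat.find_spec hex
  have hmin : ∀ w' : List Bool, w'.length < w.length → orb u M s0 g0 w' M < N := by
    intro w' hw'
    by_contra hc
    push Not at hc
    exact Nat.find_min hex (m := w'.length) (by omega) ⟨w', rfl, hc⟩
  set g' := orb u M s0 g0 w with hg'
  set s1 : ℕ → ℕ := fun i => if ∃ m, M ≤ m ∧ i = ec (ini g' (m + 1)) then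
    v ((dl i).length - 1) else s0 i with hs1
  have hs1u : ∀ g'' : ℕ → ℕ, g'' M < N → ∀ m, M ≤ m →
      s1 (ec (ini g'' (m + 1))) = s0 (ec (ini g'' (m + 1))) := by
    intro g'' hg'' m hm
    simp only [hs1]
    rw [if_neg]
    rintro ⟨m', hm', he⟩
    have h1 := ec_inj he
    have h2 : m + 1 = m' + 1 := by
      have := congrArg List.length h1
      simpa only [ini_length] using this
    have h3 : m = m' := by omega
    subst h3
    have h4 := agree_of_ini_eq h1 M (by omega)
    omega
  have hHu : ∀ g'' : ℕ → ℕ, g'' M < N → ∀ m, M ≤ m →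
      Hm u M s1 (ec (ini g'' (m + 1))) = Hm u M s0 (ec (ini g'' (m + 1))) := by
    intro g'' hg'' m hm
    unfold Hm
    rw [hs1u g'' hg'' m hm]
  have horb : ∀ w' : List Bool, w'.length ≤ w.length → orb u M s1 g0 w' = orb u M s0 g0 w' := by
    intro w'
    induction w' with
    | nil => intro _; rfl
    | cons b w' ih =>
      intro hl
      rw [List.length_cons] at hl
      have h1 := ih (by omega)
      have h2 := hmin w' (by omega)
      funext m
      rcases lt_or_ge m M with h | h
      · change pre u M _ m = pre u M _ m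
        unfold pre
        rw [if_pos h, if_pos h]
      · cases b with
        | false =>
          change alp u M s1 (orb u M s1 g0 w') m = alp u M s0 (orb u M s0 g0 w') m
          rw [h1]
          unfold alp pre act
          rw [if_neg (by omega), if_neg (by omega)]
          exact hs1u _ h2 m h
        | true =>
          change alp u M (Hm u M s1) (orb u M s1 g0 w') m =
            alp u M (Hm u M s0) (orb u M s0 g0 w') m
          rw [h1]
          unfold alp pre act
          rw [if_neg (by omega), if_neg (by omega)]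
          exact hHu _ h2 m h
  refine ⟨s1, ?_, false :: w, ?_⟩
  · intro i hi
    simp only [hs1]
    rw [if_neg]
    rintro ⟨m, hm, he⟩
    have h1 : g' M < ec (ini g' (m + 1)) := lt_ec_ini (by omega)
    have h2 : n ≤ N := le_max_left _ _
    omega
  · change alp u M s1 (orb u M s1 g0 w) = v
    rw [horb w le_rfl]
    funext m
    unfold alp pre act
    split_ifs with h
    · exact (hv m h).symm
    · simp only [hs1]
      rw [if_pos ⟨m, by omega, rfl⟩, dl_ec, ini_length]
      rfl

theorem continuous_orb (u : ℕ → ℕ) (M : ℕ) (w : List Bool) :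
    Continuous fun p : (ℕ → ℕ) × (ℕ → ℕ) => orb u M p.1 p.2 w := by
  induction w with
  | nil => exact continuous_snd
  | cons b w ih =>
    cases b with
    | false => exact (continuous_alp u M).comp (continuous_fst.prodMk ih)
    | true =>
      exact (continuous_alp u M).comp (((continuous_hm u M).comp continuous_fst).prodMk ih)

theorem orb2 : ST_ORB2 := by
  intro u M W _
  have h1 : ∀ l : List ℕ, ∀ᶠ p in residual ((ℕ → ℕ) × (ℕ → ℕ)), p.2 ∈ Cy u M →
      xf l ∈ Cy u M → ∃ w, orb u M p.1 p.2 w ∈ Cy (xf l) l.length := by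
    intro l
    by_cases hl : xf l ∈ Cy u M
    · set D : Set ((ℕ → ℕ) × (ℕ → ℕ)) := {p | p.2 ∈ (Cy u M)ᶜ} ∪
        ⋃ w : List Bool, (fun p : (ℕ → ℕ) × (ℕ → ℕ) => orb u M p.1 p.2 w) ⁻¹'
          (Cy (xf l) l.length) with hD
      have hDo : IsOpen D := by
        refine IsOpen.union ?_ (isOpen_iUnion fun w => ?_)
        · exact (isClosed_Cy u M).isOpen_compl.preimage continuous_snd
        · exact (isOpen_Cy _ _).preimage (continuous_orb u M w)
      have hDd : Dense D := by
        refine dense_of_box fun x y n => ?_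
        by_cases hy : y ∈ Cy u M
        · obtain ⟨s1, hs1, w, hw⟩ := orb_dense_step u x y (xf l) M n hy hl
          refine ⟨(s1, y), Or.inr (mem_iUnion.2 ⟨w, ?_⟩), hs1, mem_Cy_self y n⟩
          change orb u M s1 y w ∈ Cy (xf l) l.length
          rw [hw]
          exact mem_Cy_self _ _
        · exact ⟨(x, y), Or.inl hy, mem_Cy_self x n, mem_Cy_self y n⟩
      have hDr : D ∈ residual ((ℕ → ℕ) × (ℕ → ℕ)) := residual_of_dense_open hDo hDd
      filter_upwards [hDr] with p hp hpC _
      rcases hp with hp | hp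
      · exact absurd hpC hp
      · exact mem_iUnion.1 hp
    · exact Eventually.of_forall fun p _ h => absurd h hl
  filter_upwards [eventually_countable_forall.2 h1] with p hp _ hpC v k hv
  obtain ⟨w, hw⟩ := hp (ini v (max k M)) hpC (by
    intro i hi
    rw [xf_ini_agree v _ i (lt_of_lt_of_le hi (le_max_right _ _))]
    exact hv i hi)
  refine ⟨w, fun i hi => ?_⟩
  rw [hw i (by rw [ini_length]; exact lt_of_lt_of_le hi (le_max_left _ _)),
    xf_ini_agree v _ i (lt_of_lt_of_le hi (le_max_left _ _))]

end Pool.Agent.Helper45.MWF
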