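import Pool.Agent.Helper45.MWF.ACT
import Pool.Agent.Helper69.MWF.BasicT

/-!
# MP_80e84b_lc (S14965): the tree is c.e.
-/

set_option autoImplicit false

open Topology Set Filter
open Nat.Partrec (Code)

namespace Pool.Agent.Helper45.MWF

open Pool.Agent.Helper95.MW Pool.Agent.Helper69.MWF

/-- the string `a` zipped with the initial segment of `f` of the same length -/
def tht (f : ℕ → ℕ) (a : ℕ) : ℕ := ec (zp (ini f (dl a).length) (dl a) (dl a).length)

theorem tht_ini (f x : ℕ → ℕ) (k : ℕ) : tht f (ec (ini x k)) = ec (ini (jn f x) k) := by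
  unfold tht
  rw [dl_ec, ini_length, ini_jn f x k k k le_rfl le_rfl]

/-- one step of the two maps on initial segments -/
def Rl (c : Code) (f f' : ℕ → ℕ) (a b : ℕ) : Prop :=
  (c.eval (Nat.pair b (tht f a))).Dom ∨ (c.eval (Nat.pair b (tht f' a))).Dom

theorem le_tht (f : ℕ → ℕ) : LE (fun m : ℕ => Nat.pair m.unpair.2 (tht f m.unpair.1)) f := by
  have h1 : Primrec fun m : ℕ => m.unpair.1 := Primrec.fst.comp Primrec.unpair
  have h2 : Primrec fun m : ℕ => m.unpair.2 := Primrec.snd.comp Primrec.unpair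
  have h3 : Primrec fun m : ℕ => (dl m.unpair.1).length :=
    Primrec.list_length.comp (primrec_dl.comp h1)
  have ha : LE (fun m : ℕ => ec (ini f (dl m.unpair.1).length)) f :=
    (le_comp_primrec (x := fun n => ec (ini f n)) h3).trans (le_ini (LE.refl f))
  have hG : Primrec₂ fun (m v : ℕ) => Nat.pair m.unpair.2
      (ec (zp (dl v) (dl m.unpair.1) (dl m.unpair.1).length)) := by
    refine Primrec₂.natPair.comp (h2.comp Primrec.fst) (primrec_ec.comp ?_)
    refine primrec_zp.comp (Primrec.pair (Primrec.pair ?_ ?_) ?_)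
    · exact primrec_dl.comp Primrec.snd
    · exact primrec_dl.comp (h1.comp Primrec.fst)
    · exact h3.comp Primrec.fst
  have h := le_fun2 hG ha
  simpa only [dl_ec, tht] using h

theorem ceIn_rl (hCEC : ST_CEC) (c : Code) {f f' w : ℕ → ℕ} (h : LE f w) (h' : LE f' w) :
    CEIn {m | Rl c f f' m.unpair.1 m.unpair.2} w := by
  obtain ⟨-, hunion, hcomp, -, -, -, -, hdom⟩ := hCEC
  have h1 := hcomp _ w _ (hdom c w) ((le_tht f).trans h)
  have h2 := hcomp _ w _ (hdom c w) ((le_tht f').trans h')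
  exact hunion _ _ w h1 h2

theorem orb_mem (u : ℕ → ℕ) (M : ℕ) (s g : ℕ → ℕ) (hg : g ∈ Cy u M) (w : List Bool) :
    orb u M s g w ∈ Cy u M := by
  cases w with
  | nil => exact hg
  | cons b w => exact pre_mem u M _

theorem closure_eq (F : (ℕ → ℕ) → (ℕ → ℕ)) (u : ℕ → ℕ) (M : ℕ) (s g : ℕ → ℕ) (c : Code)
    (H1 : ∀ w, segs (F (alp u M s (orb u M s g w))) = WC c (jn (F s) (F (orb u M s g w))))
    (H2 : ∀ w, segs (F (alp u M (Hm u M s) (orb u M s g w))) =
      WC c (jn (F (Hm u M s)) (F (orb u M s g w)))) :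
    {b | ∃ a ∈ segs (F g), Relation.ReflTransGen (Rl c (F s) (F (Hm u M s))) a b} =
      {m | ∃ w, m ∈ segs (F (orb u M s g w))} := by
  ext m
  constructor
  · rintro ⟨a, ha, h⟩
    induction h with
    | refl => exact ⟨[], ha⟩
    | tail _ hR ih =>
      obtain ⟨w, k, rfl⟩ := ih
      rcases hR with h | h
      · refine ⟨false :: w, ?_⟩
        change _ ∈ segs (F (alp u M s (orb u M s g w)))
        rw [H1]
        rw [tht_ini] at h
        exact ⟨k, h⟩
      · refine ⟨true :: w, ?_⟩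
        change _ ∈ segs (F (alp u M (Hm u M s) (orb u M s g w)))
        rw [H2]
        rw [tht_ini] at h
        exact ⟨k, h⟩
  · rintro ⟨w, hm⟩
    induction w generalizing m with
    | nil => exact ⟨m, hm, Relation.ReflTransGen.refl⟩
    | cons b w ih =>
      cases b with
      | false =>
        change _ ∈ segs (F (alp u M s (orb u M s g w))) at hm
        rw [H1] at hm
        obtain ⟨k, hk⟩ := hm
        obtain ⟨a, ha, h⟩ := ih (ec (ini (F (orb u M s g w)) k)) ⟨k, rfl⟩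
        refine ⟨a, ha, h.tail (Or.inl ?_)⟩
        rw [tht_ini]
        exact hk
      | true =>
        change _ ∈ segs (F (alp u M (Hm u M s) (orb u M s g w))) at hm
        rw [H2] at hm
        obtain ⟨k, hk⟩ := hm
        obtain ⟨a, ha, h⟩ := ih (ec (ini (F (orb u M s g w)) k)) ⟨k, rfl⟩
        refine ⟨a, ha, h.tail (Or.inr ?_)⟩
        rw [tht_ini]
        exact hk

theorem tree1 (hBOX : ST_BOX) (hORB2 : ST_ORB2) (hRTG : ST_RTG) (hCL : ST_CL) (hRES : ST_RES)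
    (hCEC : ST_CEC) : ST_TREE1 := by
  intro π F G hπ hR
  obtain ⟨u, M, W, c, hW, hWne, hWH, hbox⟩ := hBOX π F G hπ hR
  refine ⟨u, M, ?_⟩
  obtain ⟨-, -, -, -, hjn, hfst, hsnd, -, -⟩ := hRES
  have hgen : ∀ᶠ p in residual ((ℕ → ℕ) × (ℕ → ℕ)), p.1 ∈ W → p.2 ∈ Cy u M →
      CEIn (TS F (G ∩ Cy u M)) (π (jn p.1 p.2)) := by
    have hO : {q : (ℕ → ℕ) × (ℕ → ℕ) | q.1 ∈ G ∧ q.2 ∈ G ∧ (q.1 ∈ W → q.2 ∈ Cy u M →
        segs (F (alp u M q.1 q.2)) = WC c (jn (F q.1) (F q.2)))} ∈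
        residual ((ℕ → ℕ) × (ℕ → ℕ)) := by
      filter_upwards [hfst hR.res, hsnd hR.res, hbox] with q h1 h2 h3
      exact ⟨h1, h2, h3⟩
    filter_upwards [orb1 u M W hW hWH _ hO, hORB2 u M W hW] with p hp1 hp2 hpW hpC
    have hq := hp1 hpW hpC
    have hmem := orb_mem u M p.1 p.2 hpC
    have H1 : ∀ w, segs (F (alp u M p.1 (orb u M p.1 p.2 w))) =
        WC c (jn (F p.1) (F (orb u M p.1 p.2 w))) := fun w => (hq w).1.2.2 hpW (hmem w)
    have H2 : ∀ w, segs (F (alp u M (Hm u M p.1) (orb u M p.1 p.2 w))) =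
        WC c (jn (F (Hm u M p.1)) (F (orb u M p.1 p.2 w))) := fun w =>
      (hq w).2.2.2 (hWH _ hpW) (hmem w)
    have hT : TS F (G ∩ Cy u M) = {m | ∃ w, m ∈ segs (F (orb u M p.1 p.2 w))} := by
      ext m
      constructor
      · rintro ⟨x, ⟨hxG, hxC⟩, k, rfl⟩
        obtain ⟨m', hm'⟩ := hR.cont x hxG k
        obtain ⟨w, hw⟩ := hp2 hpW hpC x m' hxC
        refine ⟨w, k, ?_⟩
        have h1 := hm' _ (hq w).1.2.1 hw
        rw [mem_Cy_iff.1 h1]
      · rintro ⟨w, hw⟩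
        exact ⟨_, ⟨(hq w).1.2.1, hmem w⟩, hw⟩
    rw [hT, ← closure_eq F u M p.1 p.2 c H1 H2]
    have hp1G := hR.te _ (hq []).1.1
    have hHG := hR.te _ (hq []).2.1
    have hp2G := hR.te _ (hq []).1.2.1
    have hL1 : LE (F p.1) (π (jn p.1 p.2)) :=
      hp1G.1.trans ((hπ.iff _ _).1 (le_jn_left _ _))
    have hL2 : LE (F (Hm u M p.1)) (π (jn p.1 p.2)) :=
      hHG.1.trans ((hπ.iff _ _).1 ((le_hm u M p.1).trans (le_jn_left _ _)))
    have hL3 : LE (F p.2) (π (jn p.1 p.2)) :=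
      hp2G.1.trans ((hπ.iff _ _).1 (le_jn_right _ _))
    exact hRTG _ _ _ (le_iff_segs.1 hL3) (ceIn_rl hCEC c hL1 hL2)
  refine hCL π hπ _ _ ?_
  intro hmg
  have hres : {h : ℕ → ℕ | CEIn (TS F (G ∩ Cy u M)) (jn (fun _ => 0) (π h))}ᶜ ∈
      residual (ℕ → ℕ) := hmg
  obtain ⟨s, hs⟩ := hWne
  obtain ⟨n, hn⟩ := exists_Cy_subset hW hs
  obtain ⟨p, ⟨h1, h2⟩, h3, h4⟩ := exists_of_residual2' (hgen.and ((hjn _).1 hres)) s u n M
  exact h2 ((h1 (hn h3) h4).mono (le_jn_right _ _))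

theorem continuous_cat (v : ℕ → ℕ) (k : ℕ) : Continuous (cat v k) := by
  refine continuous_pi fun i => ?_
  unfold cat
  by_cases h : i < k
  · simp only [if_pos h]
    exact continuous_const
  · simp only [if_neg h]
    exact continuous_apply _

theorem rep_cat (hRES : ST_RES) {π F : (ℕ → ℕ) → (ℕ → ℕ)} {G : Set (ℕ → ℕ)} (hπ : PiAut π)
    (hR : Rep π F G) (v : ℕ → ℕ) (k : ℕ) :
    Rep π (fun y => F (cat v k y)) {y | cat v k y ∈ G} where
  res := by
    refine (hRES.2.2.2.1 v k (fun x => x ∈ G)).1 ?_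
    filter_upwards [hR.res] with x hx _
    exact hx
  te := fun x hx => (hR.te _ hx).trans (pi_te hπ (cat_te v k x))
  meas := hR.meas.comp (continuous_cat v k).measurable
  cont := by
    intro x hx n
    obtain ⟨m, hm⟩ := hR.cont (cat v k x) hx n
    refine ⟨m, fun x' hx' hc => hm _ hx' ?_⟩
    exact Cy_mono (Nat.le_add_left m k) (cat_mem_iff.2 hc)
  inv := by
    intro x hx n
    obtain ⟨m, hm⟩ := hR.inv (cat v k x) hx (k + n)
    exact ⟨m, fun x' hx' hc => cat_mem_iff.1 (hm _ hx' hc)⟩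

theorem tree (hBOX : ST_BOX) (hORB2 : ST_ORB2) (hRTG : ST_RTG) (hCL : ST_CL) (hRES : ST_RES)
    (hCEC : ST_CEC) : ST_TREE := by
  intro π F G hπ hR v k
  obtain ⟨u, n, h⟩ := tree1 hBOX hORB2 hRTG hCL hRES hCEC π _ _ hπ (rep_cat hRES hπ hR v k)
  refine ⟨cat v k u, k + n, Nat.le_add_right _ _, cat_mem v k u, ?_⟩
  have e : TS F (G ∩ Cy (cat v k u) (k + n)) =
      TS (fun y => F (cat v k y)) ({y | cat v k y ∈ G} ∩ Cy u n) := by
    ext m
    constructor
    · rintro ⟨x, ⟨hxG, hxC⟩, hm⟩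
      have h1 : x ∈ Cy v k :=
        mem_Cy_trans (cat_mem v k u) (Cy_mono (Nat.le_add_right k n) hxC)
      have h2 := cat_shift h1
      refine ⟨fun i => x (i + k), ⟨?_, ?_⟩, ?_⟩
      · change cat v k (fun i => x (i + k)) ∈ G
        rw [h2]
        exact hxG
      · rw [← h2] at hxC
        exact cat_mem_iff.1 hxC
      · change m ∈ segs (F (cat v k (fun i => x (i + k))))
        rw [h2]
        exact hm
    · rintro ⟨y, ⟨hyG, hyC⟩, hm⟩
      exact ⟨cat v k y, ⟨hyG, cat_mem_iff.2 hyC⟩, hm⟩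
  rw [e]
  exact h

end Pool.Agent.Helper45.MWF
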